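import Pool.Agent.N163.BTRR2
import Pool.Agent.N208.AM.MainA

set_option autoImplicit false
set_option linter.unusedSectionVars false

/-!
# All full subalgebras have the same derived algebra on the parts (statement S_SJ of project BT)
-/

open Module Matrix

noncomputable section

namespace Pool.Agent.N835.BTSJ

open Pool.Agent.Y102 Pool.Agent.W516.DR Pool.Agent.H204R3.GP Pool.Agent.W516.KC
  Pool.Agent.H204R3.SP Pool.Agent.TH119.MX Pool.Agent.R917 Pool.Agent.N208.AM Pool.Agent.N208.AD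
  Pool.Agent.N208.BT Pool.Agent.N163.BTRR2

variable {g : ℕ} {A : AbVar g}

/-- the elements of a perfect Lie algebra have trace zero -/
theorem trace_zero {n : ℕ} {𝔯 : Submodule ℝ (M n)} (h : RR 𝔯) {m : M n} (hm : m ∈ 𝔯) :
    m.trace = 0 := by
  have h1 := h.perf hm
  clear hm
  induction h1 using Submodule.span_induction with
  | mem m hm =>
    obtain ⟨X, -, Y, -, rfl⟩ := hm
    rw [Matrix.trace_sub, Matrix.trace_mul_comm, sub_self]
  | zero => exact Matrix.trace_zero _ _
  | add a b _ _ ha hb => rw [Matrix.trace_add, ha, hb, add_zero]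
  | smul c a _ ha => rw [Matrix.trace_smul, ha, smul_zero]

/-- commutants of the real span -/
theorem comm_spE {y : Module.End ℝ (Fin g → ℂ)}
    (hy : y ∈ spE A (A.NA : Set (Module.End ℚ A.H1))) {P : Module.End ℚ A.H1} (hP : P ∈ A.EA) :
    y * A.ext P = A.ext P * y := by
  induction hy using Submodule.span_induction with
  | mem y hy =>
    obtain ⟨X, hX, rfl⟩ := hy
    rw [← ext_mul, ← ext_mul, A.NA_comm hX hP]
  | zero => rw [zero_mul, mul_zero]
  | add a b _ _ ha hb => rw [add_mul, mul_add, ha, hb]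
  | smul c a _ ha => rw [smul_mul_assoc, mul_smul_comm, ha]

theorem der_br {𝔮 : Submodule ℚ (Module.End ℚ A.H1)} (hq : A.Full 𝔮)
    {x y : Module.End ℝ (Fin g → ℂ)} (hx : x ∈ spE A (der 𝔮 : Set (Module.End ℚ A.H1)))
    (hy : y ∈ spE A (der 𝔮 : Set (Module.End ℚ A.H1))) :
    x * y - y * x ∈ spE A (der 𝔮 : Set (Module.End ℚ A.H1)) :=
  spE_br (S := der 𝔮) (T := der 𝔮) (U := der 𝔮)
    (fun X hX Y hY => Submodule.subset_span ⟨X, hq.der_le hX, Y, hq.der_le hY, rfl⟩) x hx y hy

theorem main (hM : S_Main) (hSU : S_SU) (hPA : S_PA) (hWA : S_WA2) (hWB : S_WB2) (hRR : S_RR2)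
    (hS1 : S_S1) (hS2 : S_S2) : S_SJ := by
  intro g A z Sg hB 𝔮 hq X hX
  have hle : spE A (der 𝔮 : Set (Module.End ℚ A.H1)) ≤
      spE A (A.NA : Set (Module.End ℚ A.H1)) := spE_mono (hq.der_le.trans hq.le)
  have hleN : spE A (der A.NA : Set (Module.End ℚ A.H1)) ≤
      spE A (A.NA : Set (Module.End ℚ A.H1)) := spE_mono (full_NA.der_le.trans le_rfl)
  -- the modules
  have hw : ∀ al ∈ Sg, ∃ (n : ℕ) (φ : V n →ₗ[ℝ] (Fin g → ℂ)), WD A z al n φ := by
    intro al hal
    obtain ⟨W, e0, h1⟩ := hWA g A z al (hB.hp al hal)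
    exact hWB g A z al (hB.hp al hal) W e0 h1
  choose n φ w using hw
  have hr : ∀ al (hal : al ∈ Sg), RR (rW A (der 𝔮) (φ al hal)) := fun al hal =>
    hRR g A z al (hB.hp al hal) _ _ (w al hal) 𝔮 hq
  have hrN : ∀ al (hal : al ∈ Sg), RR (rW A (der A.NA) (φ al hal)) := fun al hal =>
    hRR g A z al (hB.hp al hal) _ _ (w al hal) A.NA full_NA
  -- all long roots
  have hlong : ∀ al (hal : al ∈ Sg), ∀ x : V (n al hal), hf x x = 0 →
      Complex.I • R x x ∈ rW A (der 𝔮) (φ al hal) := fun al hal =>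
    (hM _ _ (hr al hal)).resolve_right (hS1 g A z Sg hB al hal _ _ (w al hal) 𝔮 hq)
  have hall : ∀ al (hal : al ∈ Sg), ∀ m : M (n al hal), IsSk m → m.trace = 0 →
      m ∈ rW A (der 𝔮) (φ al hal) := by
    intro al hal m hm htr
    refine Submodule.span_le.2 ?_ (hSU _ m hm htr)
    rintro _ ⟨x, hx, rfl⟩
    exact hlong al hal x hx
  -- pairs
  have hpair : ∀ al (hal : al ∈ Sg), ∀ be (hbe : be ∈ Sg), al ≠ be → ∀ m : M (n al hal), IsSk m →
      m.trace = 0 → ∃ y ∈ spE A (der 𝔮 : Set (Module.End ℚ A.H1)),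
        (∀ x, y (φ al hal x) = φ al hal (m *ᵥ x)) ∧ ∀ x, y (φ be hbe x) = 0 := by
    intro al hal be hbe hne m hm htr
    have hPR : PR (rW2 A (der 𝔮) (φ al hal) (φ be hbe)) := by
      refine ⟨?_, ?_, ?_, ?_, ?_, ?_, ?_⟩
      · rintro p ⟨y, hy, h1, h2⟩ p' ⟨y', hy', h1', h2'⟩
        refine ⟨y * y' - y' * y, der_br hq hy hy', fun x => ?_, fun x => ?_⟩
        · rw [LinearMap.sub_apply, Module.End.mul_apply, Module.End.mul_apply, h1', h1, h1, h1',
            ← map_sub, Matrix.mulVec_mulVec, Matrix.mulVec_mulVec, ← Matrix.sub_mulVec]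
          rfl
        · rw [LinearMap.sub_apply, Module.End.mul_apply, Module.End.mul_apply, h2', h2, h2, h2',
            ← map_sub, Matrix.mulVec_mulVec, Matrix.mulVec_mulVec, ← Matrix.sub_mulVec]
          rfl
      · rintro p ⟨y, hy, h1, h2⟩
        exact (hr al hal).sk p.1 ⟨y, hy, h1⟩
      · rintro p ⟨y, hy, h1, h2⟩
        exact (hr be hbe).sk p.2 ⟨y, hy, h2⟩
      · rintro p ⟨y, hy, h1, h2⟩
        exact trace_zero (hr al hal) (m := p.1) ⟨y, hy, h1⟩
      · rintro p ⟨y, hy, h1, h2⟩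
        exact trace_zero (hr be hbe) (m := p.2) ⟨y, hy, h2⟩
      · intro x hx
        obtain ⟨y, hy, h1⟩ := hlong al hal x hx
        obtain ⟨Y, hY⟩ := mat_spE (hB.hp be hbe) (w be hbe) (hle hy)
        exact ⟨Y, y, hy, h1, hY⟩
      · intro x hx
        obtain ⟨y, hy, h1⟩ := hlong be hbe x hx
        obtain ⟨Y, hY⟩ := mat_spE (hB.hp al hal) (w al hal) (hle hy)
        exact ⟨Y, y, hy, hY, h1⟩
    have h1 : ∀ x : V (n al hal), hf x x = 0 →
        (Complex.I • R x x, (0 : M (n be hbe))) ∈ rW2 A (der 𝔮) (φ al hal) (φ be hbe) := by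
      rcases hPA _ _ _ hPR with h | ⟨S, hS0, hS⟩ | ⟨S, hS0, hS⟩
      · exact h
      · exact absurd hS (hS2 g A z Sg hB al hal be hbe hne _ _ _ _ (w al hal) (w be hbe) 𝔮 hq
          S hS0).1
      · exact absurd hS (hS2 g A z Sg hB al hal be hbe hne _ _ _ _ (w al hal) (w be hbe) 𝔮 hq
          S hS0).2
    have h2 : m ∈ (rW2 A (der 𝔮) (φ al hal) (φ be hbe)).comap
        (LinearMap.inl ℝ (M (n al hal)) (M (n be hbe))) := by
      refine Submodule.span_le.2 ?_ (hSU _ m hm htr)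
      rintro _ ⟨x, hx, rfl⟩
      exact h1 x hx
    obtain ⟨y, hy, h3, h4⟩ := h2
    refine ⟨y, hy, h3, fun x => ?_⟩
    rw [h4]
    change φ be hbe ((0 : M (n be hbe)) *ᵥ x) = 0
    rw [Matrix.zero_mulVec, map_zero]
  -- finite sets
  have hT : ∀ al (hal : al ∈ Sg), ∀ T : Finset ℝ, al ∉ T → T ⊆ Sg → ∀ m : M (n al hal), IsSk m →
      m.trace = 0 → ∃ y ∈ spE A (der 𝔮 : Set (Module.End ℚ A.H1)),
        (∀ x, y (φ al hal x) = φ al hal (m *ᵥ x)) ∧
          ∀ be (hbe : be ∈ Sg), be ∈ T → ∀ x, y (φ be hbe x) = 0 := by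
    intro al hal T
    induction T using Finset.induction_on with
    | empty =>
      intro _ _ m hm htr
      obtain ⟨y, hy, h1⟩ := hall al hal m hm htr
      exact ⟨y, hy, h1, fun be hbe h => absurd h (Finset.notMem_empty _)⟩
    | insert be T hbT ih =>
      intro halT hTS m hm htr
      have hbe : be ∈ Sg := hTS (Finset.mem_insert_self _ _)
      have hne : al ≠ be := fun h => halT (by rw [h]; exact Finset.mem_insert_self _ _)
      have ih' := ih (fun h => halT (Finset.mem_insert_of_mem h))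
        (fun t ht => hTS (Finset.mem_insert_of_mem ht))
      have h1 := (hr al hal).perf (hall al hal m hm htr)
      clear hm htr
      induction h1 using Submodule.span_induction with
      | mem m hm =>
        obtain ⟨m1, hm1, m2, hm2, rfl⟩ := hm
        obtain ⟨y1, hy1, a1, b1⟩ := ih' m1 ((hr al hal).sk m1 hm1) (trace_zero (hr al hal) hm1)
        obtain ⟨y2, hy2, a2, b2⟩ := hpair al hal be hbe hne m2 ((hr al hal).sk m2 hm2)
          (trace_zero (hr al hal) hm2)
        refine ⟨y1 * y2 - y2 * y1, der_br hq hy1 hy2, fun x => ?_, fun be' hbe' hmem x => ?_⟩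
        · rw [LinearMap.sub_apply, Module.End.mul_apply, Module.End.mul_apply, a2, a1, a1, a2,
            ← map_sub, Matrix.mulVec_mulVec, Matrix.mulVec_mulVec, ← Matrix.sub_mulVec]
        · rw [LinearMap.sub_apply, Module.End.mul_apply, Module.End.mul_apply]
          rcases Finset.mem_insert.1 hmem with h | h
          · subst h
            obtain ⟨Y, hY⟩ := mat_spE (hB.hp be' hbe') (w be' hbe') (hle hy1)
            rw [b2, map_zero, hY, b2, sub_zero]
          · obtain ⟨Y, hY⟩ := mat_spE (hB.hp be' hbe') (w be' hbe') (hle hy2)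
            rw [b1 be' hbe' h, map_zero, hY, b1 be' hbe' h, sub_zero]
      | zero =>
        exact ⟨0, Submodule.zero_mem _, fun x => by
          rw [LinearMap.zero_apply, Matrix.zero_mulVec, map_zero], fun _ _ _ _ => by
          rw [LinearMap.zero_apply]⟩
      | add a b _ _ ha hb =>
        obtain ⟨y, hy, h2, h3⟩ := ha
        obtain ⟨y', hy', h2', h3'⟩ := hb
        exact ⟨y + y', Submodule.add_mem _ hy hy', fun x => by
          rw [LinearMap.add_apply, Matrix.add_mulVec, map_add, h2, h2'], fun be' hbe' hmem x => by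
          rw [LinearMap.add_apply, h3 be' hbe' hmem, h3' be' hbe' hmem, add_zero]⟩
      | smul c a _ ha =>
        obtain ⟨y, hy, h2, h3⟩ := ha
        exact ⟨c • y, Submodule.smul_mem _ c hy, fun x => by
          rw [LinearMap.smul_apply, Matrix.smul_mulVec, map_smul, h2], fun be' hbe' hmem x => by
          rw [LinearMap.smul_apply, h3 be' hbe' hmem, smul_zero]⟩
  -- the element
  have hfin : ∀ al : {al // al ∈ Sg}, ∃ y ∈ spE A (der 𝔮 : Set (Module.End ℚ A.H1)),
      (∀ x, y (φ al.1 al.2 x) = X (φ al.1 al.2 x)) ∧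
        ∀ be (hbe : be ∈ Sg), be ≠ al.1 → ∀ x, y (φ be hbe x) = 0 := by
    rintro ⟨al, hal⟩
    obtain ⟨m, hm⟩ := mat_spE (hB.hp al hal) (w al hal) (hleN hX)
    have hmem : m ∈ rW A (der A.NA) (φ al hal) := ⟨X, hX, hm⟩
    obtain ⟨y, hy, h1, h2⟩ := hT al hal (Sg.erase al) (Finset.notMem_erase _ _)
      (Finset.erase_subset _ _) m ((hrN al hal).sk m hmem) (trace_zero (hrN al hal) hmem)
    refine ⟨y, hy, fun x => ?_, fun be hbe hne x => h2 be hbe (Finset.mem_erase.2 ⟨hne, hbe⟩) x⟩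
    rw [hm]
    exact h1 x
  choose y hy h1 h2 using hfin
  have hY : (∑ al ∈ Sg.attach, y al) ∈ spE A (der 𝔮 : Set (Module.End ℚ A.H1)) :=
    Submodule.sum_mem _ fun al _ => hy al
  refine ⟨∑ al ∈ Sg.attach, y al, hY, fun al hal x hx => ?_⟩
  have h3 : ∀ u, (X - ∑ al ∈ Sg.attach, y al) (φ al hal u) = 0 := by
    intro u
    rw [LinearMap.sub_apply, LinearMap.sum_apply, Finset.sum_eq_single ⟨al, hal⟩, h1, sub_self]
    · intro be _ hne
      exact h2 be al hal (fun h => hne (Subtype.ext h.symm)) u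
    · intro h
      exact absurd (Finset.mem_attach _ _) h
  have h4 := (w al hal).gen (X - ∑ al ∈ Sg.attach, y al) (fun P hP =>
    comm_spE (Submodule.sub_mem _ (hleN hX) (hle hY)) hP) h3 x hx
  rw [LinearMap.sub_apply, sub_eq_zero] at h4
  exact h4

end Pool.Agent.N835.BTSJ
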