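import Mathlib
import Pool.Agent.N576.MX.Defs

set_option autoImplicit false

/-!
# Project MX (helper576), RSTART: few starts of runs with exceptional words behind them (helper835)
-/

namespace Pool.Agent.N835.MXR

open Pool.Agent.H499R2 Pool.Agent.TH880.MK Pool.Agent.N576.MK Pool.Agent.N576.MX

/-- the nodes at the starts of runs are balanced -/
theorem bal {g : List Bool} {c : Bool} (h : Tst g c) : sz (g ++ [c]) ≤ 3 * mm (g ++ [c]) := by
  rw [← sz_pq]
  unfold mm
  rcases List.eq_nil_or_concat' g with h1 | ⟨k, b, h1⟩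
  · subst h1
    cases c <;> decide
  · subst h1
    have hbc : b ≠ c := by
      rintro rfl
      exact h k rfl
    rw [desc_snoc, desc_snoc]
    cases b <;> cases c
    · exact absurd rfl hbc
    · simp only [step, lf, rt]
      omega
    · simp only [step, lf, rt]
      omega
    · exact absurd rfl hbc

/-- the candidates -/
def cand (f : List Bool) : Finset (List Bool) :=
  {f, f ++ [true], f ++ [false], f.dropLast, f.dropLast.dropLast}

theorem cand_card (f : List Bool) : (cand f).card ≤ 5 := by
  unfold cand
  exact Finset.card_le_five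

theorem mem_cand {R : ℕ} {f g l : List Bool} {c : Bool} (h : Tst g c) (h1 : R < sz (g ++ [c]))
    (h2 : sz (g ++ [c]) ≤ 2 * R) (hl : g ++ [c] <+: l) (hf : f <+: l) (hf1 : R < sz f)
    (hf2 : sz f ≤ 2 * R) : g ++ [c] ∈ cand f := by
  rcases le_total f.length (g ++ [c]).length with hle | hle
  · obtain ⟨w, hw⟩ := List.prefix_of_prefix_length_le hf hl hle
    rcases List.eq_nil_or_concat' w with h3 | ⟨w', b, h3⟩
    · subst h3
      rw [List.append_nil] at hw
      unfold cand
      rw [← hw]
      simp
    · rcases List.eq_nil_or_concat' w' with h4 | ⟨w'', a, h4⟩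
      · subst h3
        subst h4
        rw [List.nil_append] at hw
        unfold cand
        rw [← hw]
        cases b <;> simp
      · exfalso
        subst h3
        subst h4
        have h5 : f ++ (w'' ++ [a]) ++ [b] = g ++ [c] := by
          rw [← hw]
          simp
        obtain ⟨h6, h7⟩ := List.append_inj' h5 rfl
        have h8 : b = c := by simpa using h7
        have hab : a ≠ b := by
          rintro rfl
          apply h (f ++ w'')
          rw [← h6, ← h8]
          simp
        have hd : 2 * sz f ≤ sz (f ++ (w'' ++ [a] ++ [b])) := by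
          apply sz_double
          · cases a <;> cases b <;> simp at hab ⊢
          · cases a <;> cases b <;> simp at hab ⊢
        rw [hw] at hd
        omega
  · obtain ⟨w, hw⟩ := List.prefix_of_prefix_length_le hl hf hle
    have hb := bal h
    have hm := mm_pos (g ++ [c])
    have hs := sz_len (m := mm (g ++ [c])) (f := g ++ [c]) (w := w) (min_le_left _ _)
      (min_le_right _ _)
    rw [hw] at hs
    have hwl : w.length ≤ 2 := by
      by_contra hcon
      push Not at hcon
      have : mm (g ++ [c]) * 3 ≤ mm (g ++ [c]) * w.length := Nat.mul_le_mul_left _ hcon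
      omega
    unfold cand
    rw [← hw]
    match w, hwl with
    | [], _ => simp
    | [a], _ =>
      have e : (g ++ [c] ++ [a]).dropLast = g ++ [c] := List.dropLast_concat
      rw [e]
      simp
    | [a, b], _ =>
      have e : (g ++ [c] ++ [a, b]).dropLast.dropLast = g ++ [c] := by
        have e1 : g ++ [c] ++ [a, b] = (g ++ [c] ++ [a]) ++ [b] := by simp
        rw [e1, List.dropLast_concat, List.dropLast_concat]
      rw [e]
      simp

/-- **MX/RSTART** -/
theorem rstart : RSTART := by
  classical
  intro ε hε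
  obtain ⟨C, hC, hmain⟩ := cones_few ε hε
  refine ⟨5 * C, by positivity, fun H R G hH hR hG => ?_⟩
  have hex : ∀ x ∈ G, ∃ l, x.1 ++ [x.2] <+: l ∧ Exc H l := fun x hx => (hG x hx).2.2.2
  choose! L hL using hex
  obtain ⟨F, hF1, hF2, hF3⟩ := hmain H R hH hR (G.image L) (by
    intro l hl
    obtain ⟨x, hx, rfl⟩ := Finset.mem_image.1 hl
    obtain ⟨h1, h2, h3⟩ := hL x hx
    exact ⟨lt_of_lt_of_le (hG x hx).2.1 (sz_prefix h1), h2, h3⟩)
  have hsub : G.image (fun x => x.1 ++ [x.2]) ⊆ F.biUnion cand := by
    intro n hn
    obtain ⟨x, hx, rfl⟩ := Finset.mem_image.1 hn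
    obtain ⟨f, hf, hfl⟩ := hF2 (L x) (Finset.mem_image_of_mem L hx)
    exact Finset.mem_biUnion.2 ⟨f, hf, mem_cand (hG x hx).1 (hG x hx).2.1 (hG x hx).2.2.1
      (hL x hx).1 hfl (hF1 f hf).1 (hF1 f hf).2⟩
  have hinj : (G.image (fun x => x.1 ++ [x.2])).card = G.card := by
    apply Finset.card_image_of_injOn
    intro x _ y _ hxy
    obtain ⟨h1, h2⟩ := List.append_inj' hxy rfl
    exact Prod.ext h1 (by simpa using h2)
  have hcard : G.card ≤ F.card * 5 := by
    rw [← hinj]
    exact (Finset.card_le_card hsub).trans
      (Finset.card_biUnion_le_card_mul _ _ _ fun f _ => cand_card f)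
  have h1 : (G.card : ℝ) ≤ F.card * 5 := by exact_mod_cast hcard
  calc (G.card : ℝ) ≤ F.card * 5 := h1
    _ ≤ (C * R * (H : ℝ) ^ ε) * 5 := mul_le_mul_of_nonneg_right hF3 (by norm_num)
    _ = 5 * C * R * (H : ℝ) ^ ε := by ring

end Pool.Agent.N835.MXR
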